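import Mathlib

namespace Pool.Agent.H.MP_9ad55e_co

open Set MeasureTheory Matrix
open scoped ENNReal

abbrev V := Fin 2 → ℝ

def dt (a b c : V) : ℝ := (b 0 - a 0) * (c 1 - a 1) - (b 1 - a 1) * (c 0 - a 0)

def Tri (a b c : V) : Set V := {x | 0 < dt b c x ∧ 0 < dt c a x ∧ 0 < dt a b x}

def Nn (f : V → ℝ) (a b c y : V) : ℝ := dt b c y * f a + dt c a y * f b + dt a b y * f c

def Del (P : Finset V) (f : V → ℝ) (t : V × V × V) : Prop :=
  t.1 ∈ P ∧ t.2.1 ∈ P ∧ t.2.2 ∈ P ∧ 0 < dt t.1 t.2.1 t.2.2 ∧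
    ∀ p ∈ P, p ≠ t.1 → p ≠ t.2.1 → p ≠ t.2.2 → Nn f t.1 t.2.1 t.2.2 p < dt t.1 t.2.1 t.2.2 * f p

theorem dt_sum (a b c x : V) : dt b c x + dt c a x + dt a b x = dt a b c := by unfold dt; ring

theorem dt_rot (a b c : V) : dt b c a = dt a b c := by unfold dt; ring

theorem Nn_rot (f : V → ℝ) (a b c y : V) : Nn f b c a y = Nn f a b c y := by unfold Nn; ring

theorem Tri.rot {a b c x : V} (h : x ∈ Tri a b c) : x ∈ Tri b c a := ⟨h.2.1, h.2.2, h.1⟩

theorem Tri.pos {a b c x : V} (h : x ∈ Tri a b c) : 0 < dt a b c := by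
  linarith [dt_sum a b c x, h.1, h.2.1, h.2.2]

theorem Del.rot {P f} {a b c : V} (h : Del P f (a, b, c)) : Del P f (b, c, a) :=
  ⟨h.2.1, h.2.2.1, h.1, (dt_rot a b c).symm ▸ h.2.2.2.1, fun p hp h1 h2 h3 => by
    simpa only [Nn_rot f a b c, dt_rot a b c] using h.2.2.2.2 p hp h3 h1 h2⟩

theorem Del.le {P f} {a b c : V} (h : Del P f (a, b, c)) {p : V} (hp : p ∈ P) :
    Nn f a b c p ≤ dt a b c * f p := by
  by_cases h1 : p = a
  · subst h1; apply le_of_eq; unfold Nn dt; ring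
  by_cases h2 : p = b
  · subst h2; apply le_of_eq; unfold Nn dt; ring
  by_cases h3 : p = c
  · subst h3; apply le_of_eq; unfold Nn dt; ring
  exact (h.2.2.2.2 p hp h1 h2 h3).le

theorem pivot (f : V → ℝ) {a b c x p : V} (h : x ∈ Tri a b c)
    (k : dt a b c * f p < Nn f a b c p) (h1 : dt c a p * dt b c x < dt b c p * dt c a x)
    (h2 : dt a b p * dt b c x < dt b c p * dt a b x) :
    x ∈ Tri p b c ∧ Nn f p b c x / dt p b c < Nn f a b c x / dt a b c := by
  have D := Tri.pos h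
  have m : x ∈ Tri p b c := by
    refine ⟨h.1, pos_of_mul_pos_left (b := dt a b c) ?_ D.le,
      pos_of_mul_pos_left (b := dt a b c) ?_ D.le⟩
    · have : dt c p x * dt a b c = dt b c p * dt c a x - dt c a p * dt b c x := by unfold dt; ring
      linarith
    · have : dt p b x * dt a b c = dt b c p * dt a b x - dt a b p * dt b c x := by unfold dt; ring
      linarith
  refine ⟨m, ?_⟩
  rw [div_lt_div_iff₀ (Tri.pos m) D]
  have : Nn f a b c x * dt p b c - Nn f p b c x * dt a b c =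
      dt b c x * (Nn f a b c p - dt a b c * f p) := by unfold Nn dt; ring
  nlinarith [mul_pos h.1 (sub_pos.2 k)]

theorem ex_del {P : Finset V} {f : V → ℝ}
    (G : ∀ a ∈ P, ∀ b ∈ P, ∀ c ∈ P, ∀ p ∈ P, 0 < dt a b c → p ≠ a → p ≠ b → p ≠ c →
      Nn f a b c p ≠ dt a b c * f p) {x : V} (hx : ∀ a ∈ P, ∀ b ∈ P, a ≠ b → dt a b x ≠ 0)
    (h : ∃ a ∈ P, ∃ b ∈ P, ∃ c ∈ P, x ∈ Tri a b c) :
    ∃ a b c, Del P f (a, b, c) ∧ x ∈ Tri a b c := by
  classical
  obtain ⟨⟨a, b, c⟩, ht, hm⟩ := ((P ×ˢ P ×ˢ P).filter fun t => x ∈ Tri t.1 t.2.1 t.2.2).exists_min_image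
    (fun t => Nn f t.1 t.2.1 t.2.2 x / dt t.1 t.2.1 t.2.2) (by
      obtain ⟨a, ha, b, hb, c, hc, h⟩ := h
      exact ⟨(a, b, c), by simp [ha, hb, hc, h]⟩)
  simp only [Finset.mem_filter, Finset.mem_product, Prod.forall, and_imp] at ht hm
  obtain ⟨⟨ha, hb, hc⟩, ht⟩ := ht
  have D := Tri.pos ht
  refine ⟨a, b, c, ⟨ha, hb, hc, D, fun p hp h1 h2 h3 => ?_⟩, ht⟩
  by_contra k
  have k := lt_of_le_of_ne (not_lt.1 k) (G a ha b hb c hc p hp D h1 h2 h3).symm
  have e1 : dt c p x * dt a b c = dt b c p * dt c a x - dt c a p * dt b c x := by unfold dt; ring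
  have e2 : dt a p x * dt a b c = dt c a p * dt a b x - dt a b p * dt c a x := by unfold dt; ring
  have e3 : dt b p x * dt a b c = dt a b p * dt b c x - dt b c p * dt a b x := by unfold dt; ring
  have n1 := mul_ne_zero (hx c hc p hp h3.symm) D.ne'
  have n2 := mul_ne_zero (hx a ha p hp h1.symm) D.ne'
  have n3 := mul_ne_zero (hx b hb p hp h2.symm) D.ne'
  rw [e1, sub_ne_zero] at n1
  rw [e2, sub_ne_zero] at n2
  rw [e3, sub_ne_zero] at n3
  have A : dt c a p * dt b c x < dt b c p * dt c a x →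
      dt a b p * dt b c x < dt b c p * dt a b x → False := fun u v => by
    obtain ⟨m, l⟩ := pivot f ht k u v
    exact absurd (hm p b c hp hb hc m) (not_le.2 l)
  have B : dt a b p * dt c a x < dt c a p * dt a b x →
      dt b c p * dt c a x < dt c a p * dt b c x → False := fun u v => by
    obtain ⟨m, l⟩ := pivot f (Tri.rot ht) (by rwa [dt_rot, Nn_rot]) u v
    rw [Nn_rot f a b c, dt_rot a b c] at l
    exact absurd (hm p c a hp hc ha m) (not_le.2 l)
  have C : dt b c p * dt a b x < dt a b p * dt b c x →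
      dt c a p * dt a b x < dt a b p * dt c a x → False := fun u v => by
    obtain ⟨m, l⟩ := pivot f (Tri.rot (Tri.rot ht)) (by rwa [← dt_rot, ← Nn_rot]) u v
    rw [← Nn_rot f c a b, ← dt_rot c a b] at l
    exact absurd (hm p a b hp ha hb m) (not_le.2 l)
  obtain ⟨l, m, n⟩ := ht
  rcases n1.lt_or_gt with u | u <;> rcases n2.lt_or_gt with v | v <;>
    rcases n3.lt_or_gt with w | w
  all_goals first
    | exact A u w | exact B v u | exact C w v
    | nlinarith [mul_lt_mul_of_pos_left u n, mul_lt_mul_of_pos_left v l, mul_lt_mul_of_pos_left w m]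

theorem uniq {P f} {a b c u v w x : V} (h : Del P f (a, b, c)) (k : Del P f (u, v, w))
    (hx : x ∈ Tri a b c) (kx : x ∈ Tri u v w) : v = a ∨ v = b ∨ v = c := by
  by_contra n
  push Not at n
  have e : ∀ a b c u v w : V, dt u v w * Nn f a b c x = dt v w x * Nn f a b c u +
      dt w u x * Nn f a b c v + dt u v x * Nn f a b c w := by
    intros; unfold Nn dt; ring
  have a1 := mul_le_mul_of_nonneg_left (h.le k.1) kx.1.le
  have a2 := mul_lt_mul_of_pos_left (h.2.2.2.2 v k.2.1 n.1 n.2.1 n.2.2) kx.2.1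
  have a3 := mul_le_mul_of_nonneg_left (h.le k.2.2.1) kx.2.2.le
  have b1 := mul_le_mul_of_nonneg_left (k.le h.1) hx.1.le
  have b2 := mul_le_mul_of_nonneg_left (k.le h.2.1) hx.2.1.le
  have b3 := mul_le_mul_of_nonneg_left (k.le h.2.2.1) hx.2.2.le
  have c1 := e a b c u v w
  have c2 := e u v w a b c
  have d1 : dt a b c * Nn f u v w x = dt v w x * (dt a b c * f u) + dt w u x * (dt a b c * f v) +
    dt u v x * (dt a b c * f w) := by unfold Nn; ring
  have d2 : dt u v w * Nn f a b c x = dt b c x * (dt u v w * f a) + dt c a x * (dt u v w * f b) +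
    dt a b x * (dt u v w * f c) := by unfold Nn; ring
  simp only at *
  linarith

def Cn (t : V × V × V) : Set V := {z | 0 < dt t.1 t.2.1 (t.1 + z) ∧ 0 < dt t.2.2 t.1 (t.1 + z)}

theorem cone_uniq {P f} {a b c v w z : V} (h : Del P f (a, b, c)) (k : Del P f (a, v, w))
    (hz : z ∈ Cn (a, b, c)) (kz : z ∈ Cn (a, v, w)) : b = v ∧ c = w := by
  have T : ∀ b c : V, 0 < dt a b c → z ∈ Cn (a, b, c) →
      ∀ᶠ e in nhdsWithin (0 : ℝ) (Ioi 0), a + e • z ∈ Tri a b c := by
    intro b c D hz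
    have : ContinuousAt (fun e : ℝ => dt b c (a + e • z)) 0 := by unfold dt; fun_prop
    filter_upwards [self_mem_nhdsWithin, nhdsWithin_le_nhds (continuousAt_const.eventually_lt this
      (show (0 : ℝ) < dt b c (a + (0 : ℝ) • z) by simpa [dt_rot] using D))] with e e0 he
    have h1 : dt c a (a + e • z) = e * dt c a (a + z) := by simp [dt]; ring
    have h2 : dt a b (a + e • z) = e * dt a b (a + z) := by simp [dt]; ring
    exact ⟨he, h1 ▸ mul_pos e0 hz.2, h2 ▸ mul_pos e0 hz.1⟩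
  have D := h.2.2.2.1
  have E := k.2.2.2.1
  obtain ⟨e, p, q⟩ := ((T b c D hz).and (T v w E kz)).exists
  have s := uniq h k p q
  have t := uniq h k.rot p (Tri.rot q)
  simp only at D E
  rcases s with rfl | rfl | rfl <;> rcases t with rfl | rfl | rfl <;>
    first
      | exact ⟨rfl, rfl⟩
      | (exfalso; unfold dt at D E; nlinarith)

theorem line_null {a b : V} (h : a ≠ b) (u : V) : volume {x | dt a b (u + x) = 0} = 0 := by
  let l : V →ₗ[ℝ] ℝ := (b 0 - a 0) • LinearMap.proj 1 - (b 1 - a 1) • LinearMap.proj 0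
  have : volume (LinearMap.ker l : Set V) = 0 := by
    refine Measure.addHaar_submodule _ _ fun k => h ?_
    have k0 : l ![1, 0] = 0 := (k ▸ Submodule.mem_top : ![1, 0] ∈ LinearMap.ker l)
    have k1 : l ![0, 1] = 0 := (k ▸ Submodule.mem_top : ![0, 1] ∈ LinearMap.ker l)
    simp [l] at k0 k1
    ext i; fin_cases i <;> simp <;> linarith
  rw [← measure_preimage_add_right volume (u - a)] at this
  convert this using 2
  ext x
  simp only [l, dt, mem_ofPred_eq, mem_preimage, SetLike.mem_coe, LinearMap.mem_ker,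
    LinearMap.sub_apply, LinearMap.smul_apply, LinearMap.proj_apply, Pi.add_apply, Pi.sub_apply,
    smul_eq_mul]
  constructor <;> intro h <;> linarith

theorem ne_of_dt {a b c : V} (h : 0 < dt a b c) : a ≠ b := by
  rintro rfl; simp [dt] at h

theorem angle {a b c : V} (h : 0 < dt a b c) (μ : Measure V) [μ.IsNegInvariant]
    (ac : μ ≪ volume) : μ univ ≤ 2 * (μ (Cn (a, b, c)) + μ (Cn (b, c, a)) + μ (Cn (c, a, b))) := by
  have n1 := ac (line_null (ne_of_dt h) a)
  have n2 := ac (line_null (ne_of_dt (dt_rot a b c ▸ h : 0 < dt b c a)) b)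
  have n3 := ac (line_null (ne_of_dt (dt_rot c a b ▸ h : 0 < dt c a b)) c)
  have H : {z | 0 < dt a b (a + z)} ⊆ Cn (a, b, c) ∪ Cn (b, c, a) ∪ -Cn (c, a, b) ∪
      ({x | dt b c (b + x) = 0} ∪ {x | dt c a (c + x) = 0}) := by
    intro z hz
    simp only [Cn, dt, mem_union, mem_ofPred_eq, mem_neg, Pi.add_apply, Pi.neg_apply] at hz ⊢
    by_contra k
    push Not at k
    obtain ⟨⟨⟨k1, k2⟩, k3⟩, k4, k5⟩ := k
    have k1 := k1 hz
    rcases k4.lt_or_gt with k4 | k4
    · have := k3 (by cases k5.lt_or_gt <;> linarith)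
      linarith
    · have := k2 k4
      linarith
  have H1 : μ {z | 0 < dt a b (a + z)} ≤ μ (Cn (a, b, c)) + μ (Cn (b, c, a)) + μ (Cn (c, a, b)) := by
    refine (measure_mono H).trans ((measure_union_le _ _).trans ?_)
    rw [measure_union_null n2 n3, add_zero, ← Measure.measure_neg μ (Cn (c, a, b))]
    exact (measure_union_le _ _).trans (by gcongr; exact measure_union_le _ _)
  have H2 : (univ : Set V) ⊆ {z | 0 < dt a b (a + z)} ∪ -{z | 0 < dt a b (a + z)} ∪
      {x | dt a b (a + x) = 0} := by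
    intro z _
    simp only [dt, mem_union, mem_ofPred_eq, mem_neg, Pi.add_apply, Pi.neg_apply]
    by_contra k
    push Not at k
    exact k.2 (by linarith [k.1.1, k.1.2])
  refine (measure_mono H2).trans ((measure_union_le _ _).trans ?_)
  rw [n1, add_zero, two_mul]
  refine (measure_union_le _ _).trans ?_
  rw [Measure.measure_neg]
  gcongr

theorem m_Cn (t : V × V × V) : MeasurableSet (Cn t) := by
  unfold Cn dt
  measurability

theorem m_Tri (a b c : V) : MeasurableSet (Tri a b c) := by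
  unfold Tri dt
  measurability

open Classical in
theorem count (P : Finset V) (f : V → ℝ) :
    (((P ×ˢ P ×ˢ P).filter (Del P f)).card : ℝ≥0∞) ≤ 6 * P.card := by
  set T := (P ×ˢ P ×ˢ P).filter (Del P f)
  have mT : ∀ t, t ∈ T ↔ Del P f t := fun t => by
    simp only [T, Finset.mem_filter, Finset.mem_product, and_iff_right_iff_imp]
    exact fun h => ⟨h.1, h.2.1, h.2.2.1⟩
  let μ : Measure V := volume.restrict (Metric.ball 0 1)
  have : μ.IsNegInvariant := ⟨by
    ext s hs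
    rw [Measure.neg_apply, Measure.restrict_apply hs, Measure.restrict_apply hs.neg,
      ← Measure.measure_neg volume (s ∩ _), inter_neg, neg_ball, neg_zero]⟩
  have m0 : μ univ ≠ 0 := by
    rw [Measure.restrict_apply_univ]; exact (Metric.measure_ball_pos _ _ one_pos).ne'
  have m1 : μ univ ≠ ⊤ := by rw [Measure.restrict_apply_univ]; exact measure_ball_lt_top.ne
  have A : ∑ t ∈ T, μ (Cn t) ≤ P.card * μ univ := by
    rw [← Finset.sum_fiberwise_of_maps_to (t := P) (g := fun t => t.1)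
      fun t ht => ((mT t).1 ht).1, ← nsmul_eq_mul]
    refine Finset.sum_le_card_nsmul _ _ _ fun a _ => ?_
    rw [← measure_biUnion_finset _ fun t _ => m_Cn t]
    · exact measure_mono (subset_univ _)
    rintro ⟨a1, b, c⟩ h ⟨a2, v, w⟩ k ne
    simp only [Finset.coe_filter, mem_ofPred_eq, mT] at h k
    obtain ⟨h, rfl⟩ := h
    obtain ⟨k, rfl⟩ := k
    refine disjoint_left.2 fun z hz kz => ne ?_
    obtain ⟨rfl, rfl⟩ := cone_uniq h k hz kz
    rfl
  have R : ∀ g : V × V × V → ℝ≥0∞, ∑ t ∈ T, g (t.2.1, t.2.2, t.1) = ∑ t ∈ T, g t := fun g =>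
    Finset.sum_nbij' (fun t => (t.2.1, t.2.2, t.1)) (fun t => (t.2.2, t.1, t.2.1))
      (fun t h => (mT _).2 (Del.rot ((mT _).1 h)))
      (fun t h => (mT _).2 (Del.rot (Del.rot ((mT _).1 h)))) (fun _ _ => rfl) (fun _ _ => rfl)
      fun _ _ => rfl
  have B : T.card * μ univ ≤ 6 * ∑ t ∈ T, μ (Cn t) := by
    rw [← nsmul_eq_mul]
    refine (Finset.card_nsmul_le_sum _ _ _ fun t ht =>
      angle ((mT t).1 ht).2.2.2.1 μ Measure.absolutelyContinuous_restrict).trans (le_of_eq ?_)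
    rw [← Finset.mul_sum, Finset.sum_add_distrib, Finset.sum_add_distrib, R fun t => μ (Cn t),
      ← R fun t => μ (Cn (t.2.2, t.1, t.2.1))]
    ring
  refine (ENNReal.mul_le_mul_iff_left m0 m1).1 (B.trans ?_)
  rw [mul_assoc]
  gcongr

end Pool.Agent.H.MP_9ad55e_co
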