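import Pool.Agent.H.MP_9ad55e_co.A

namespace Pool.Agent.H.MP_9ad55e_co

open Set MeasureTheory Matrix
open scoped ENNReal

theorem vol_std : volume {u : V | 0 < u 0 ∧ 0 < u 1 ∧ u 0 + u 1 < 1} ≤ ENNReal.ofReal (1 / 2) := by
  set S := {u : V | 0 < u 0 ∧ 0 < u 1 ∧ u 0 + u 1 < 1}
  have m : MeasurableSet S := by measurability
  have e : volume ((fun u : V => 1 - u) ⁻¹' S) = volume S :=
    (Measure.measurePreserving_sub_left volume 1).measure_preimage m.nullMeasurableSet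
  have d : Disjoint ((fun u : V => 1 - u) ⁻¹' S) S := disjoint_left.2 fun u h k => by
    simp only [S, mem_preimage, mem_ofPred_eq, Pi.sub_apply, Pi.one_apply] at h k
    linarith [h.2.2, k.2.2]
  have s : (fun u : V => 1 - u) ⁻¹' S ∪ S ⊆ Icc 0 1 := by
    intro u h
    simp only [S, mem_union, mem_preimage, mem_ofPred_eq, Pi.sub_apply, Pi.one_apply, mem_Icc,
      Pi.le_def, Fin.forall_fin_two, Pi.zero_apply] at h ⊢
    rcases h with ⟨h, k, l⟩ | ⟨h, k, l⟩ <;> refine ⟨⟨?_, ?_⟩, ?_, ?_⟩ <;> linarith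
  have := measure_mono (μ := volume) s
  rw [measure_union d m, e, Real.volume_Icc_pi, ← two_mul] at this
  simp only [Pi.one_apply, Pi.zero_apply, sub_zero, ENNReal.ofReal_one, Finset.prod_const_one] at this
  rw [ENNReal.ofReal_div_of_pos two_pos, ENNReal.ofReal_one, ENNReal.ofReal_ofNat,
    ENNReal.le_div_iff_mul_le (by simp) (by simp), mul_comm]
  exact this

theorem vol_Tri {a b c : V} (h : 0 < dt a b c) :
    volume (Tri a b c) ≤ ENNReal.ofReal (dt a b c / 2) := by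
  set D := dt a b c with hD
  let M : Matrix (Fin 2) (Fin 2) ℝ := !![(c 1 - a 1) / D, (a 0 - c 0) / D; (a 1 - b 1) / D, (b 0 - a 0) / D]
  have hM : M.det = D⁻¹ := by
    rw [det_fin_two_of]
    field_simp
    rw [hD, dt]; ring
  have k := Measure.addHaar_preimage_linearMap (volume : Measure V) (f := Matrix.toLin' M)
    (by rw [LinearMap.det_toLin', hM]; positivity) {u : V | 0 < u 0 ∧ 0 < u 1 ∧ u 0 + u 1 < 1}
  rw [LinearMap.det_toLin', hM, inv_inv, abs_of_pos h, ← measure_preimage_add_right volume (-a)] at k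
  calc _ ≤ _ := measure_mono fun x hx => ?_
    _ = _ := k
    _ ≤ _ := by
      rw [div_eq_mul_one_div, ENNReal.ofReal_mul h.le]
      gcongr
      exact vol_std
  have e0 : (M *ᵥ (x + -a)) 0 = dt c a x / D := by
    simp [M, mulVec, dotProduct, dt]; ring
  have e1 : (M *ᵥ (x + -a)) 1 = dt a b x / D := by
    simp [M, mulVec, dotProduct, dt]; ring
  simp only [mem_preimage, toLin'_apply, mem_ofPred_eq, e0, e1]
  refine ⟨div_pos hx.2.1 h, div_pos hx.2.2 h, ?_⟩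
  rw [← add_div, div_lt_one h]
  linarith [dt_sum a b c x, hx.1]

open Polynomial in
theorem generic (P : Finset V) : ∃ f : V → ℝ, (∀ p, p 0 ^ 2 + p 1 ^ 2 ≤ f p ∧
    f p ≤ p 0 ^ 2 + p 1 ^ 2 + 1 / 1000) ∧ ∀ a ∈ P, ∀ b ∈ P, ∀ c ∈ P, ∀ p ∈ P, 0 < dt a b c →
      p ≠ a → p ≠ b → p ≠ c → Nn f a b c p ≠ dt a b c * f p := by
  obtain ⟨i, hi⟩ := Set.countable_iff_exists_injOn.1 P.countable_toSet
  obtain ⟨q, hq⟩ : ∃ q : V → ℝ, ∀ p, q p = p 0 ^ 2 + p 1 ^ 2 := ⟨_, fun _ => rfl⟩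
  let g : V → ℝ[X] := fun p => C (q p) + X ^ (i p + 1)
  let G : V × V × V × V → ℝ[X] := fun t => C (dt t.2.1 t.2.2.1 t.2.2.2) * g t.1 +
    C (dt t.2.2.1 t.1 t.2.2.2) * g t.2.1 + C (dt t.1 t.2.1 t.2.2.2) * g t.2.2.1 -
      C (dt t.1 t.2.1 t.2.2.1) * g t.2.2.2
  have F : (⋃ t ∈ (P ×ˢ P ×ˢ P ×ˢ P : Finset _), (G t).rootSet ℝ).Finite :=
    (Finset.finite_toSet _).biUnion fun t _ => rootSet_finite _ _
  obtain ⟨t, ⟨t0, t1⟩, ht⟩ := (Ioo_infinite (show (0 : ℝ) < 1 / 1000 by norm_num)).exists_notMem_finite F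
  refine ⟨fun p => (g p).eval t, fun p => ?_, fun a ha b hb c hc p hp D h1 h2 h3 e => ht ?_⟩
  · simp only [g, eval_add, eval_C, eval_pow, eval_X, hq]
    have := pow_le_one₀ (n := i p) t0.le (by linarith)
    constructor
    · simp; positivity
    · rw [pow_succ t]; nlinarith
  refine mem_iUnion₂.2 ⟨(a, b, c, p), by simp [ha, hb, hc, hp], mem_rootSet.2 ⟨fun z => ?_, ?_⟩⟩
  · have := congrArg (coeff · (i p + 1)) z
    simp [G, g, coeff_X_pow, mul_add, hi.eq_iff hp ha, hi.eq_iff hp hb, hi.eq_iff hp hc, h1, h2,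
      h3] at this
    exact D.ne' this
  · simp only [Nn] at e
    simp only [G, coe_aeval_eq_eval, eval_sub, eval_add (p := _ + _), eval_mul, eval_C]
    simp only [eval_add, eval_mul, eval_C]
    linarith

theorem area (a b c o : V) (r : ℝ) (ha : (a 0 - o 0) ^ 2 + (a 1 - o 1) ^ 2 ≤ r)
    (hb : (b 0 - o 0) ^ 2 + (b 1 - o 1) ^ 2 ≤ r) (hc : (c 0 - o 0) ^ 2 + (c 1 - o 1) ^ 2 ≤ r) :
    dt a b c ≤ 3 * 0.8661 * r := by
  unfold dt
  nlinarith [sq_nonneg (2 * 0.8661 * (a 0 - o 0) - (b 1 - c 1)),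
    sq_nonneg (2 * 0.8661 * (b 0 - o 0) - (c 1 - a 1)),
    sq_nonneg (2 * 0.8661 * (c 0 - o 0) - (a 1 - b 1)),
    sq_nonneg (a 1 + b 1 + c 1 - 3 * o 1), sq_nonneg (a 1 - o 1), sq_nonneg (b 1 - o 1),
    sq_nonneg (c 1 - o 1)]

def Cov (P : Finset V) (x : V) : Prop :=
  ∀ y : V, (y 0 - x 0) ^ 2 + (y 1 - x 1) ^ 2 ≤ 9 → ∃ p ∈ P, (p 0 - y 0) ^ 2 + (p 1 - y 1) ^ 2 ≤ 1 / 4

theorem radius {P : Finset V} {x o : V} (h : Cov P x) {r : ℝ}
    (hx : (x 0 - o 0) ^ 2 + (x 1 - o 1) ^ 2 ≤ r)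
    (hp : ∀ p ∈ P, r - 1 / 1000 ≤ (p 0 - o 0) ^ 2 + (p 1 - o 1) ^ 2) : r ≤ 0.251 := by
  by_cases k : (o 0 - x 0) ^ 2 + (o 1 - x 1) ^ 2 ≤ 1
  · obtain ⟨p, m, l⟩ := h o (by linarith)
    linarith [hp p m]
  obtain ⟨d, d1, hd⟩ : ∃ d : ℝ, 1 < d ∧ d ^ 2 = (o 0 - x 0) ^ 2 + (o 1 - x 1) ^ 2 :=
    ⟨√_, Real.lt_sqrt_of_sq_lt (by linarith), Real.sq_sqrt (by positivity)⟩
  obtain ⟨u, hu⟩ : ∃ u, o 0 = x 0 + d * u := ⟨(o 0 - x 0) / d, by field_simp; ring⟩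
  obtain ⟨v, hv⟩ : ∃ v, o 1 = x 1 + d * v := ⟨(o 1 - x 1) / d, by field_simp; ring⟩
  have e : u ^ 2 + v ^ 2 = 1 := by
    apply mul_left_cancel₀ (show d ^ 2 ≠ 0 by positivity)
    rw [hu, hv] at hd
    linarith
  obtain ⟨p, m, l⟩ := h ![x 0 + u, x 1 + v] (by simp; linarith)
  have := hp p m
  simp only [cons_val_zero, cons_val_one] at l
  rw [hu, hv] at this hx
  have k1 : -2 * ((p 0 - x 0 - u) * u + (p 1 - x 1 - v) * v) ≤ 1 := by
    linarith [sq_nonneg (2 * (p 0 - x 0 - u) + u), sq_nonneg (2 * (p 1 - x 1 - v) + v)]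
  have k2 := mul_le_mul_of_nonneg_left k1 (sub_pos.2 d1).le
  have k3 : d ^ 2 * (u ^ 2 + v ^ 2) = d ^ 2 := by rw [e, mul_one]
  have k4 : (d - 1) ^ 2 * (u ^ 2 + v ^ 2) = (d - 1) ^ 2 := by rw [e, mul_one]
  linarith

theorem small {P : Finset V} {f : V → ℝ} (hf : ∀ p, p 0 ^ 2 + p 1 ^ 2 ≤ f p ∧
    f p ≤ p 0 ^ 2 + p 1 ^ 2 + 1 / 1000) {a b c x : V} (h : Del P f (a, b, c))
    (hx : x ∈ Tri a b c) (k : Cov P x) : dt a b c ≤ 0.6522 := by
  have D : 0 < dt a b c := h.2.2.2.1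
  obtain ⟨o, r, ho⟩ : ∃ (o : V) (r : ℝ), ∀ y, Nn f a b c y = dt a b c *
      (y 0 ^ 2 + y 1 ^ 2 + r - ((y 0 - o 0) ^ 2 + (y 1 - o 1) ^ 2)) := by
    set s := (Nn f a b c ![1, 0] - Nn f a b c 0) / (2 * dt a b c) with hs
    set t := (Nn f a b c ![0, 1] - Nn f a b c 0) / (2 * dt a b c) with ht
    refine ⟨![s, t], Nn f a b c 0 / dt a b c + s ^ 2 + t ^ 2, fun y => ?_⟩
    have e : Nn f a b c y = Nn f a b c 0 + y 0 * (Nn f a b c ![1, 0] - Nn f a b c 0) +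
        y 1 * (Nn f a b c ![0, 1] - Nn f a b c 0) := by simp [Nn, dt]; ring
    simp only [cons_val_zero, cons_val_one]
    rw [e, hs, ht]
    field_simp
    ring
  have T : ∀ y, dt a b c * (y 0 ^ 2 + y 1 ^ 2) ≤ Nn f a b c y →
      (y 0 - o 0) ^ 2 + (y 1 - o 1) ^ 2 ≤ r := fun y hy => by
    rw [ho] at hy
    linarith [le_of_mul_le_mul_left hy D]
  have R : r ≤ 0.251 := radius k (o := o) (T x (by
      have : dt a b c * (dt b c x * (a 0 ^ 2 + a 1 ^ 2) + dt c a x * (b 0 ^ 2 + b 1 ^ 2) +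
        dt a b x * (c 0 ^ 2 + c 1 ^ 2) - dt a b c * (x 0 ^ 2 + x 1 ^ 2)) =
        dt b c x * dt c a x * ((a 0 - b 0) ^ 2 + (a 1 - b 1) ^ 2) +
        dt c a x * dt a b x * ((b 0 - c 0) ^ 2 + (b 1 - c 1) ^ 2) +
        dt a b x * dt b c x * ((c 0 - a 0) ^ 2 + (c 1 - a 1) ^ 2) := by unfold dt; ring
      have l := hx.1
      have m := hx.2.1
      have n := hx.2.2
      have := nonneg_of_mul_nonneg_right (le_of_le_of_eq (by positivity) this.symm) D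
      unfold Nn
      linarith [mul_le_mul_of_nonneg_left (hf a).1 l.le, mul_le_mul_of_nonneg_left (hf b).1 m.le,
        mul_le_mul_of_nonneg_left (hf c).1 n.le])) fun p hp => by
    have := h.le hp
    rw [ho] at this
    linarith [le_of_mul_le_mul_left this D, (hf p).2]
  have := area a b c o r
    (T a ((mul_le_mul_of_nonneg_left (hf a).1 D.le).trans_eq (by unfold Nn dt; ring)))
    (T b ((mul_le_mul_of_nonneg_left (hf b).1 D.le).trans_eq (by unfold Nn dt; ring)))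
    (T c ((mul_le_mul_of_nonneg_left (hf c).1 D.le).trans_eq (by unfold Nn dt; ring)))
  linarith

theorem init {P : Finset V} {x : V} (k : Cov P x) : ∃ a ∈ P, ∃ b ∈ P, ∃ c ∈ P, x ∈ Tri a b c := by
  obtain ⟨a, ha, a1⟩ := k ![x 0 + 2, x 1] (by simp; norm_num)
  obtain ⟨b, hb, b1⟩ := k ![x 0 - 2, x 1 + 2] (by simp; norm_num)
  obtain ⟨c, hc, c1⟩ := k ![x 0 - 2, x 1 - 2] (by simp; norm_num)
  simp only [cons_val_zero, cons_val_one] at a1 b1 c1
  have H : ∀ s t : ℝ, s ^ 2 + t ^ 2 ≤ 1 / 4 → (-(1 / 2) ≤ s ∧ s ≤ 1 / 2) ∧ -(1 / 2) ≤ t ∧ t ≤ 1 / 2 :=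
    fun s t h => ⟨abs_le_of_sq_le_sq' (by nlinarith) (by norm_num),
      abs_le_of_sq_le_sq' (by nlinarith) (by norm_num)⟩
  obtain ⟨⟨a1, a2⟩, a3, a4⟩ := H _ _ a1
  obtain ⟨⟨b1, b2⟩, b3, b4⟩ := H _ _ b1
  obtain ⟨⟨c1, c2⟩, c3, c4⟩ := H _ _ c1
  have M : ∀ s t : ℝ, 3 / 2 ≤ s → 3 / 2 ≤ t → 9 / 4 ≤ s * t := fun s t _ _ => by nlinarith
  have N : ∀ s t : ℝ, 0 ≤ s → s ≤ 5 / 2 → t ≤ 1 / 2 → s * t ≤ 5 / 4 := fun s t _ _ _ => by nlinarith
  refine ⟨a, ha, b, hb, c, hc, ?_, ?_, ?_⟩ <;> unfold dt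
  · linarith [M (x 0 - b 0) (x 1 - c 1) (by linarith) (by linarith),
      M (b 1 - x 1) (x 0 - c 0) (by linarith) (by linarith)]
  · linarith [M (a 0 - x 0) (x 1 - c 1) (by linarith) (by linarith),
      N (x 0 - c 0) (a 1 - x 1) (by linarith) (by linarith) (by linarith)]
  · linarith [M (a 0 - x 0) (b 1 - x 1) (by linarith) (by linarith),
      N (x 0 - b 0) (x 1 - a 1) (by linarith) (by linarith) (by linarith)]

theorem kersh (P : Finset V) {S : Set V} (hS : MeasurableSet S) (k : ∀ x ∈ S, Cov P x) :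
    volume S ≤ P.card * ENNReal.ofReal 0.6522 := by
  classical
  obtain ⟨f, hf, G⟩ := generic P
  have C := count P f
  set T := (P ×ˢ P ×ˢ P).filter (Del P f)
  have mT : ∀ t, t ∈ T ↔ Del P f t := fun t => by
    simp only [T, Finset.mem_filter, Finset.mem_product, and_iff_right_iff_imp]
    exact fun h => ⟨h.1, h.2.1, h.2.2.1⟩
  have ae : ∀ᵐ x, ∀ a ∈ P, ∀ b ∈ P, a ≠ b → dt a b x ≠ 0 := by
    simp only [Filter.eventually_all_finset]
    intro a _ b _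
    by_cases h : a = b
    · simp [h]
    · have := line_null h 0
      simp only [zero_add] at this
      filter_upwards [compl_mem_ae_iff.2 this] with x hx _ using hx
  have A : ∫⁻ _ in S, 3 ≤ ∫⁻ x in S, ∑ t ∈ T, (Tri t.1 t.2.1 t.2.2).indicator 1 x := by
    refine setLIntegral_mono_ae' hS ?_
    filter_upwards [ae] with x hx hs
    obtain ⟨a, b, c, d, m⟩ := ex_del G hx (init (k x hs))
    have D : 0 < dt a b c := d.2.2.2.1
    have n1 := ne_of_dt D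
    have n2 := ne_of_dt (dt_rot a b c ▸ D : 0 < dt b c a)
    have n3 := ne_of_dt (dt_rot c a b ▸ D : 0 < dt c a b)
    refine le_trans (le_of_eq ?_) (Finset.sum_le_sum_of_subset (s := {(a, b, c), (b, c, a), (c, a, b)})
      (by simp [Finset.insert_subset_iff, mT, d, d.rot, d.rot.rot]))
    rw [Finset.sum_insert (by simp [n1, n3.symm]), Finset.sum_pair (by simp [n2])]
    simp only [indicator_of_mem m, indicator_of_mem (Tri.rot m),
      indicator_of_mem (Tri.rot (Tri.rot m)), Pi.one_apply]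
    norm_num
  rw [lintegral_finsetSum _ fun t _ => measurable_one.indicator (m_Tri _ _ _), setLIntegral_const] at A
  have B := A.trans (Finset.sum_le_card_nsmul _ _ (ENNReal.ofReal (0.6522 / 2)) fun t ht => by
    rw [lintegral_indicator_one (m_Tri _ _ _), Measure.restrict_apply (m_Tri _ _ _)]
    rcases (Tri t.1 t.2.1 t.2.2 ∩ S).eq_empty_or_nonempty with e | ⟨x, h1, h2⟩
    · simp [e]
    · refine (measure_mono inter_subset_left).trans ((vol_Tri (Tri.pos h1)).trans ?_)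
      gcongr
      exact small hf ((mT t).1 ht) h1 (k x h2))
  refine (ENNReal.mul_le_mul_iff_right (a := 3) (by simp) (by simp)).1 (B.trans ?_)
  rw [nsmul_eq_mul, show ENNReal.ofReal 0.6522 = 2 * ENNReal.ofReal (0.6522 / 2) by
    rw [← ENNReal.ofReal_ofNat, ← ENNReal.ofReal_mul (by norm_num)]; norm_num]
  calc _ ≤ 6 * P.card * ENNReal.ofReal (0.6522 / 2) := by gcongr
    _ = _ := by ring

end Pool.Agent.H.MP_9ad55e_co
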