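import Mathlib

namespace Pool.Agent.H.MP_9ad55e_co

open Set MeasureTheory
open scoped ENNReal

abbrev E := EuclideanSpace ℝ (Fin 2)

def cells : Fin 12 → List (ℤ × ℤ) :=
  ![[(1504, 2645), (2163, 2479), (2379, 2705), (2223, 3337), (1973, 3459), (1443, 3052)],
    [(1973, 294), (2223, 172), (2687, 489), (2748, 897), (2531, 1122), (1915, 1122), (1751, 837)],
    [(1915, 1122), (2531, 1122), (2687, 1755), (2223, 2072), (1693, 1665)],
    [(199, 489), (729, 82), (979, 204), (1135, 837), (918, 1063), (260, 897)],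
    [(979, 204), (1443, -113), (1973, 294), (1751, 837), (1135, 837)],
    [(507, -460), (671, -746), (1287, -745), (1504, -520), (1443, -113), (979, 204), (729, 82)],
    [(1443, 1787), (1693, 1665), (2223, 2072), (2163, 2479), (1504, 2645), (1287, 2420)],
    [(-265, -1093), (199, -1410), (449, -1288), (671, -746), (507, -460), (-109, -460), (-325, -686)],
    [(918, 1063), (1135, 837), (1751, 837), (1915, 1122), (1693, 1665), (1443, 1787), (979, 1470)],
    [(43, 1122), (260, 897), (918, 1063), (979, 1470), (449, 1877), (199, 1755)],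
    [(449, 1877), (979, 1470), (1443, 1787), (1287, 2420), (671, 2419)],
    [(-109, -460), (507, -460), (729, 82), (199, 489), (-265, 172)]]

def strips : List (ℤ × (ℤ × ℤ) × (ℤ × ℤ) × List (Fin 12 × ℤ × ℤ × (ℤ × ℤ) × (ℤ × ℤ))) :=
  [(82, (507, -460), (729, 82),
     [(5, 0, 0, (1443, -113), (979, 204)),
      (4, 0, 0, (1443, -113), (1973, 294)),
      (0, 0, -1, (2379, -460), (2223, 172)),
      (11, 1, 0, (2995, -460), (3217, 82))]),
   (172, (729, 82), (199, 489),
     [(3, 0, 0, (729, 82), (979, 204)),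
      (5, 0, 0, (1443, -113), (979, 204)),
      (4, 0, 0, (1443, -113), (1973, 294)),
      (0, 0, -1, (2379, -460), (2223, 172)),
      (11, 1, 0, (3217, 82), (2687, 489))]),
   (204, (729, 82), (199, 489),
     [(3, 0, 0, (729, 82), (979, 204)),
      (5, 0, 0, (1443, -113), (979, 204)),
      (4, 0, 0, (1443, -113), (1973, 294)),
      (0, 0, -1, (2223, 172), (1973, 294)),
      (1, 0, 0, (2223, 172), (2687, 489)),
      (11, 1, 0, (3217, 82), (2687, 489))]),
   (294, (729, 82), (199, 489),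
     [(3, 0, 0, (979, 204), (1135, 837)),
      (4, 0, 0, (1443, -113), (1973, 294)),
      (0, 0, -1, (2223, 172), (1973, 294)),
      (1, 0, 0, (2223, 172), (2687, 489)),
      (11, 1, 0, (3217, 82), (2687, 489))]),
   (489, (-265, 172), (199, 489),
     [(11, 0, 0, (729, 82), (199, 489)),
      (3, 0, 0, (979, 204), (1135, 837)),
      (4, 0, 0, (1973, 294), (1751, 837)),
      (1, 0, 0, (2223, 172), (2687, 489))]),
   (837, (199, 489), (260, 897),
     [(3, 0, 0, (979, 204), (1135, 837)),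
      (4, 0, 0, (1973, 294), (1751, 837)),
      (1, 0, 0, (2687, 489), (2748, 897))]),
   (897, (199, 489), (260, 897),
     [(3, 0, 0, (1135, 837), (918, 1063)),
      (8, 0, 0, (1751, 837), (1915, 1122)),
      (1, 0, 0, (2687, 489), (2748, 897))]),
   (1063, (260, 897), (43, 1122),
     [(9, 0, 0, (260, 897), (918, 1063)),
      (3, 0, 0, (1135, 837), (918, 1063)),
      (8, 0, 0, (1751, 837), (1915, 1122)),
      (1, 0, 0, (2748, 897), (2531, 1122))]),
   (1122, (260, 897), (43, 1122),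
     [(9, 0, 0, (918, 1063), (979, 1470)),
      (8, 0, 0, (1751, 837), (1915, 1122)),
      (1, 0, 0, (2748, 897), (2531, 1122))]),
   (1470, (43, 1122), (199, 1755),
     [(9, 0, 0, (918, 1063), (979, 1470)),
      (8, 0, 0, (1915, 1122), (1693, 1665)),
      (2, 0, 0, (2531, 1122), (2687, 1755))]),
   (1665, (43, 1122), (199, 1755),
     [(9, 0, 0, (979, 1470), (449, 1877)),
      (10, 0, 0, (979, 1470), (1443, 1787)),
      (8, 0, 0, (1915, 1122), (1693, 1665)),
      (2, 0, 0, (2531, 1122), (2687, 1755))]),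
   (1755, (43, 1122), (199, 1755),
     [(9, 0, 0, (979, 1470), (449, 1877)),
      (10, 0, 0, (979, 1470), (1443, 1787)),
      (8, 0, 0, (1693, 1665), (1443, 1787)),
      (6, 0, 0, (1693, 1665), (2223, 2072)),
      (2, 0, 0, (2531, 1122), (2687, 1755))]),
   (1787, (199, 1755), (-265, 2072),
     [(7, 0, 1, (199, 1755), (449, 1877)),
      (9, 0, 0, (979, 1470), (449, 1877)),
      (10, 0, 0, (979, 1470), (1443, 1787)),
      (8, 0, 0, (1693, 1665), (1443, 1787)),
      (6, 0, 0, (1693, 1665), (2223, 2072)),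
      (2, 0, 0, (2687, 1755), (2223, 2072))]),
   (1877, (199, 1755), (-265, 2072),
     [(7, 0, 1, (199, 1755), (449, 1877)),
      (9, 0, 0, (979, 1470), (449, 1877)),
      (10, 0, 0, (1443, 1787), (1287, 2420)),
      (6, 0, 0, (1693, 1665), (2223, 2072)),
      (2, 0, 0, (2687, 1755), (2223, 2072))]),
   (2072, (449, 1877), (671, 2419),
     [(10, 0, 0, (1443, 1787), (1287, 2420)),
      (6, 0, 0, (1693, 1665), (2223, 2072)),
      (2, 0, 0, (2687, 1755), (2223, 2072)),
      (7, 1, 1, (2937, 1877), (3159, 2419))]),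
   (2419, (449, 1877), (671, 2419),
     [(10, 0, 0, (1443, 1787), (1287, 2420)),
      (6, 0, 0, (2223, 2072), (2163, 2479)),
      (7, 1, 1, (2937, 1877), (3159, 2419))]),
   (2420, (671, 2419), (507, 2705),
     [(5, 0, 1, (671, 2419), (1287, 2420)),
      (10, 0, 0, (1443, 1787), (1287, 2420)),
      (6, 0, 0, (2223, 2072), (2163, 2479)),
      (7, 1, 1, (3159, 2419), (2995, 2705))]),
   (2479, (671, 2419), (507, 2705),
     [(5, 0, 1, (1287, 2420), (1504, 2645)),
      (6, 0, 0, (2223, 2072), (2163, 2479)),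
      (7, 1, 1, (3159, 2419), (2995, 2705))]),
   (2645, (671, 2419), (507, 2705),
     [(5, 0, 1, (1287, 2420), (1504, 2645)),
      (6, 0, 0, (2163, 2479), (1504, 2645)),
      (0, 0, 0, (2163, 2479), (2379, 2705)),
      (7, 1, 1, (3159, 2419), (2995, 2705))]),
   (2705, (671, 2419), (507, 2705),
     [(5, 0, 1, (1504, 2645), (1443, 3052)),
      (0, 0, 0, (2163, 2479), (2379, 2705)),
      (7, 1, 1, (3159, 2419), (2995, 2705))]),
   (3052, (507, 2705), (729, 3247),
     [(5, 0, 1, (1504, 2645), (1443, 3052)),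
      (0, 0, 0, (2379, 2705), (2223, 3337)),
      (11, 1, 1, (2995, 2705), (3217, 3247))]),
   (3165, (507, 2705), (729, 3247),
     [(5, 0, 1, (1443, 3052), (979, 3369)),
      (4, 0, 1, (1443, 3052), (1973, 3459)),
      (0, 0, 0, (2379, 2705), (2223, 3337)),
      (11, 1, 1, (2995, 2705), (3217, 3247))])]

noncomputable def Pt (x y : ℝ) : E := !₂[x / 1000, y / 1000]

def Vx (i : Fin 12 × ℤ × ℤ) : Set E :=
  (fun p : ℤ × ℤ => Pt (p.1 + 2488 * i.2.1) (p.2 + 3165 * i.2.2)) '' {p | p ∈ cells i.1}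

def K (i : Fin 12 × ℤ × ℤ) : Set E := convexHull ℝ (Vx i)

def In (x y : ℝ) : Prop := ∃ i, Pt x y ∈ K i

theorem shift {x y : ℝ} (a b : ℤ) (h : In x y) : In (x + 2488 * a) (y + 3165 * b) := by
  obtain ⟨⟨j, u, v⟩, h⟩ := h
  have e : ∀ x y : ℝ, Pt (x + 2488 * a) (y + 3165 * b) = Pt x y + Pt (2488 * a) (3165 * b) := by
    intro x y; ext i; fin_cases i <;> simp [Pt] <;> ring
  refine ⟨(j, u + a, v + b), ?_⟩
  rw [e]
  refine convexHull_min ?_ ((convex_convexHull ℝ _).translate_preimage_left _) h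
  rintro _ ⟨p, hp, rfl⟩
  refine subset_convexHull ℝ _ ⟨p, hp, ?_⟩
  simp only [← e]
  congr 1 <;> push_cast <;> ring

theorem seg {S : Set E} (hS : Convex ℝ S) {x y u v t : ℝ} (h : Pt x y ∈ S) (k : Pt u v ∈ S)
    (t0 : 0 ≤ t) (t1 : t ≤ 1) : Pt (x + t * (u - x)) (y + t * (v - y)) ∈ S := by
  have e : Pt (x + t * (u - x)) (y + t * (v - y)) = (1 - t) • Pt x y + t • Pt u v := by
    ext i; fin_cases i <;> simp [Pt] <;> ring
  exact e ▸ hS h k (sub_nonneg.2 t1) t0 (by ring)

noncomputable def ex (p q : ℤ × ℤ) (y : ℝ) : ℝ := p.1 + (y - p.2) / (q.2 - p.2) * (q.1 - p.1)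

def mb (j : Fin 12) (a b : ℤ) (p : ℤ × ℤ) : Bool := (p.1 - 2488 * a, p.2 - 3165 * b) ∈ cells j

def gd (s t : ℤ) (p q : ℤ × ℤ) : Bool := p.2 ≤ s && t ≤ q.2 && p.2 < q.2

theorem edge {j a b s t p q} {y : ℝ} (hp : mb j a b p = true) (hq : mb j a b q = true)
    (g : gd s t p q = true) (h0 : s ≤ y) (h1 : y ≤ t) : Pt (ex p q y) y ∈ K (j, a, b) := by
  have m : ∀ p, mb j a b p = true → Pt p.1 p.2 ∈ K (j, a, b) := fun p hp =>
    subset_convexHull ℝ _ ⟨_, of_decide_eq_true hp, by simp⟩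
  simp only [gd, Bool.and_eq_true, decide_eq_true_eq] at g
  have g1 : (p.2 : ℝ) ≤ s := by exact_mod_cast g.1.1
  have g2 : (t : ℝ) ≤ q.2 := by exact_mod_cast g.1.2
  have g3 : (0 : ℝ) < q.2 - p.2 := sub_pos.2 (by exact_mod_cast g.2)
  have := seg (convex_convexHull ℝ _) (m p hp) (m q hq) (t := (y - p.2) / (q.2 - p.2))
    (div_nonneg (by linarith) g3.le) ((div_le_one g3).2 (by linarith))
  rwa [div_mul_cancel₀ _ g3.ne', add_sub_cancel] at this

def ok (s t : ℤ) (e : (ℤ × ℤ) × (ℤ × ℤ)) :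
    ℤ × ℤ → ℤ × ℤ → List (Fin 12 × ℤ × ℤ × (ℤ × ℤ) × (ℤ × ℤ)) → Bool
  | p, q, [] => (p, q) = e
  | p, q, (j, a, b, u, v) :: l =>
    mb j a b p && mb j a b q && mb j a b u && mb j a b v && gd s t u v && ok s t e u v l

theorem chain {s t : ℤ} {e} {x y : ℝ} (h0 : s ≤ y) (h1 : y ≤ t) (hx : x < ex e.1 e.2 y) :
    ∀ l p q, ok s t e p q l = true → gd s t p q = true → ex p q y ≤ x → In x y
  | [], p, q, h, _, k => by
    obtain rfl := of_decide_eq_true h
    exact absurd hx (not_lt.2 k)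
  | (j, a, b, u, v) :: l, p, q, h, g, k => by
    simp only [ok, Bool.and_eq_true] at h
    obtain ⟨⟨⟨⟨⟨a1, a2⟩, a3⟩, a4⟩, a5⟩, a6⟩ := h
    rcases le_or_gt (ex u v y) x with c | c
    · exact chain h0 h1 hx l u v a6 a5 c
    have d := sub_pos.2 (k.trans_lt c)
    have := seg (convex_convexHull ℝ _) (edge a1 a2 g h0 h1) (edge a3 a4 a5 h0 h1)
      (t := (x - ex p q y) / (ex u v y - ex p q y)) (div_nonneg (sub_nonneg.2 k) d.le)
      ((div_le_one d).2 (by linarith))
    rw [div_mul_cancel₀ _ d.ne', add_sub_cancel, sub_self, mul_zero, add_zero] at this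
    exact ⟨_, this⟩

def oks : ℤ → List (ℤ × (ℤ × ℤ) × (ℤ × ℤ) × List (Fin 12 × ℤ × ℤ × (ℤ × ℤ) × (ℤ × ℤ))) → Bool
  | s, [] => s = 3165
  | s, (t, p, q, l) :: L =>
    gd s t p q && ok s t ((p.1 + 2488, p.2), (q.1 + 2488, q.2)) p q l && oks t L

theorem red (x s w : ℝ) (hw : 0 < w) : ∃ a : ℤ, s ≤ x - w * a ∧ x - w * a < s + w := by
  have h1 := Int.floor_le ((x - s) / w)
  have h2 := Int.lt_floor_add_one ((x - s) / w)
  rw [le_div_iff₀ hw] at h1
  rw [div_lt_iff₀ hw] at h2
  exact ⟨⌊(x - s) / w⌋, by linarith, by linarith⟩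

theorem rows {x y : ℝ} (h1 : y < 3165) : ∀ L s, oks s L = true → s ≤ y → In x y
  | [], s, h, k => by
    obtain rfl := of_decide_eq_true h
    exact absurd h1 (by simpa using k)
  | (t, p, q, l) :: L, s, h, k => by
    simp only [oks, Bool.and_eq_true] at h
    rcases le_total (t : ℝ) y with c | c
    · exact rows h1 L t h.2 c
    obtain ⟨a, a1, a2⟩ := red x (ex p q y) 2488 (by norm_num)
    simpa using shift a 0 (chain k c (a2.trans_eq (by simp [ex]; ring)) l p q h.1.2 h.1.1 a1)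

theorem cover : ⋃₀ range K = univ := by
  rw [sUnion_range]
  refine eq_univ_of_forall fun z => mem_iUnion.2 ?_
  obtain ⟨b, b1, b2⟩ := red (1000 * z 1) 0 3165 (by norm_num)
  have := shift 0 b (rows (x := 1000 * z 0) (b2.trans_eq (zero_add _)) strips 0 (by decide +kernel)
    (by simpa using b1))
  have e : Pt (1000 * z 0) (1000 * z 1) = z := by ext i; fin_cases i <;> simp [Pt]
  simpa [In, e] using this

end Pool.Agent.H.MP_9ad55e_co
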