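import Pool.Agent.H.MP_9ad55e_co.B
import Pool.Agent.H.MP_9ad55e_co.C

namespace Pool.Agent.H.MP_9ad55e_co

open Set MeasureTheory Metric Filter
open scoped ENNReal

theorem mem_cb {x y : E} {r : ℝ} (hr : 0 ≤ r) :
    x ∈ closedBall y r ↔ (x 0 - y 0) ^ 2 + (x 1 - y 1) ^ 2 ≤ r ^ 2 := by
  rw [mem_closedBall, EuclideanSpace.dist_eq, Real.sqrt_le_left hr]
  simp [Real.dist_eq]

theorem body (i : Fin 12 × ℤ × ℤ) :
    IsCompact (K i) ∧ Convex ℝ (K i) ∧ (interior (K i)).Nonempty ∧ diam (K i) ≤ 1 := by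
  obtain ⟨j, a, b⟩ := i
  refine ⟨((List.finite_toSet _).image _).isCompact_convexHull ℝ, convex_convexHull ℝ _, ?_, ?_⟩
  · obtain ⟨p, hp, q, hq, r, hr, D⟩ := (by decide +kernel : ∀ j, ∃ p ∈ cells j, ∃ q ∈ cells j,
      ∃ r ∈ cells j, (q.1 - p.1) * (r.2 - p.2) - (q.2 - p.2) * (r.1 - p.1) ≠ 0) j
    have D : ((q.1 - p.1) * (r.2 - p.2) - (q.2 - p.2) * (r.1 - p.1) : ℝ) ≠ 0 := by exact_mod_cast D
    rw [K, interior_convexHull_nonempty_iff_affineSpan_eq_top, eq_top_iff]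
    intro x _
    have m : ∀ p ∈ cells j, Pt (p.1 + 2488 * a) (p.2 + 3165 * b) ∈ affineSpan ℝ (Vx (j, a, b)) :=
      fun p hp => subset_affineSpan ℝ _ ⟨p, hp, rfl⟩
    set d : ℝ := (q.1 - p.1) * (r.2 - p.2) - (q.2 - p.2) * (r.1 - p.1) with hd
    set u := 1000 * x 0 - (p.1 + 2488 * a) with hu
    set v := 1000 * x 1 - (p.2 + 3165 * b) with hv
    convert AffineMap.lineMap_mem (1 / 2 : ℝ)
      (AffineMap.lineMap_mem (2 * (u * (r.2 - p.2) - v * (r.1 - p.1)) / d) (m p hp) (m q hq))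
      (AffineMap.lineMap_mem (2 * ((q.1 - p.1) * v - (q.2 - p.2) * u) / d) (m p hp) (m r hr))
    ext k
    fin_cases k <;> simp [Pt, AffineMap.lineMap_apply] <;> field_simp <;> rw [hd, hu, hv] <;> ring
  · rw [K, convexHull_diam]
    refine diam_le_of_forall_dist_le zero_le_one ?_
    rintro _ ⟨p, hp, rfl⟩ _ ⟨q, hq, rfl⟩
    have : ((p.1 - q.1) ^ 2 + (p.2 - q.2) ^ 2 : ℝ) ≤ 1000000 := by
      exact_mod_cast (by decide +kernel : ∀ j, ∀ p ∈ cells j, ∀ q ∈ cells j,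
        (p.1 - q.1) ^ 2 + (p.2 - q.2) ^ 2 ≤ 1000000) j p hp q hq
    refine (mem_cb zero_le_one).2 ?_
    simp [Pt]
    linarith

def Q (i : Fin 12 × ℤ × ℤ) : Set V :=
  pi univ fun k => Ico (![(12 * i.2.1 + i.1 : ℝ) * (2488 / 12000), i.2.2 * (3165 / 1000)] k)
    (![(12 * i.2.1 + i.1 + 1 : ℝ) * (2488 / 12000), (i.2.2 + 1) * (3165 / 1000)] k)

theorem mem_Q {i x} (h : x ∈ Q i) : ((12 * i.2.1 + i.1 : ℤ) ≤ x 0 * (12000 / 2488) ∧
    x 0 * (12000 / 2488) < (12 * i.2.1 + i.1 : ℤ) + 1) ∧ i.2.2 ≤ x 1 * (1000 / 3165) ∧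
      x 1 * (1000 / 3165) < i.2.2 + 1 := by
  have h0 := h 0 trivial
  have h1 := h 1 trivial
  simp only [mem_Ico, Matrix.cons_val_zero, Matrix.cons_val_one] at h0 h1
  push_cast
  refine ⟨⟨?_, ?_⟩, ?_, ?_⟩ <;> linarith [h0.1, h0.2, h1.1, h1.2]

theorem vol_cb {r : ℝ} (hr : 0 ≤ r) : volume (closedBall (0 : E) r) = .ofReal (r ^ 2 * Real.pi) ∧
    volume (WithLp.toLp 2 ⁻¹' closedBall (0 : E) r) = .ofReal (r ^ 2 * Real.pi) := by
  rw [(PiLp.volume_preserving_toLp _).measure_preimage measurableSet_closedBall.nullMeasurableSet,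
    EuclideanSpace.volume_closedBall_fin_two, ENNReal.ofReal_mul (sq_nonneg r), ENNReal.ofReal_pow hr,
    and_self]

theorem upper {r : ℝ} (hr : 30000 ≤ r) :
    (({S ∈ range K | S ⊆ closedBall (0 : E) r}.encard : ℕ∞) : ℝ≥0∞) / volume (closedBall (0 : E) r)
      ≤ .ofReal 1.525 := by
  set I := {i | K i ⊆ closedBall (0 : E) r}
  have e : {S ∈ range K | S ⊆ closedBall (0 : E) r} = K '' I := by
    ext S
    exact ⟨fun ⟨⟨i, h⟩, k⟩ => ⟨i, by subst h; exact k, h⟩, fun ⟨i, h, k⟩ => ⟨⟨i, k⟩, k ▸ h⟩⟩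
  have d : I.PairwiseDisjoint Q := fun ⟨j, a, b⟩ _ ⟨k, u, v⟩ _ n => disjoint_left.2 fun x h l => n <| by
    have h := mem_Q h
    have l := mem_Q l
    have e1 := (Int.floor_eq_iff.2 h.1).symm.trans (Int.floor_eq_iff.2 l.1)
    have e2 := (Int.floor_eq_iff.2 h.2).symm.trans (Int.floor_eq_iff.2 l.2)
    simp only [Prod.mk.injEq, Fin.ext_iff] at e1 e2 ⊢
    omega
  have m := measure_biUnion (μ := volume) I.to_countable d fun i _ =>
    MeasurableSet.univ_pi fun _ => measurableSet_Ico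
  have vQ : ∀ i, volume (Q i) = .ofReal (2488 / 12000 * (3165 / 1000)) := fun i => by
    rw [Q, Real.volume_pi_Ico, Fin.prod_univ_two, ← ENNReal.ofReal_mul (by simp [add_mul]; norm_num)]
    congr 1
    simp
    ring
  simp only [vQ, ENNReal.tsum_set_const] at m
  have s : ⋃ i ∈ I, Q i ⊆ WithLp.toLp 2 ⁻¹' closedBall (0 : E) (r + 10) := by
    refine iUnion₂_subset fun ⟨j, a, b⟩ hi x hx => ?_
    obtain ⟨p, hp, p1, p2, p3, p4⟩ := (by decide +kernel : ∀ j, ∃ p ∈ cells j,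
      -3500 ≤ p.1 ∧ p.1 ≤ 3500 ∧ -3500 ≤ p.2 ∧ p.2 ≤ 3500) j
    have h1 := hi (subset_convexHull ℝ _ ⟨p, hp, rfl⟩)
    have h2 : WithLp.toLp 2 x ∈ closedBall (Pt (p.1 + 2488 * a) (p.2 + 3165 * b)) 10 := by
      obtain ⟨⟨a1, a2⟩, a3, a4⟩ := mem_Q hx
      have j0 : (0 : ℝ) ≤ (j : ℕ) := by positivity
      have j1 : ((j : ℕ) : ℝ) ≤ 11 := by exact_mod_cast Nat.le_of_lt_succ j.2
      have : (-3500 : ℝ) ≤ p.1 := by exact_mod_cast p1
      have : (p.1 : ℝ) ≤ 3500 := by exact_mod_cast p2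
      have : (-3500 : ℝ) ≤ p.2 := by exact_mod_cast p3
      have : (p.2 : ℝ) ≤ 3500 := by exact_mod_cast p4
      push_cast at a1 a2 a3 a4
      rw [mem_cb (by norm_num)]
      simp only [Pt, Matrix.cons_val_zero, Matrix.cons_val_one]
      have b1 := sq_le_sq' (a := x 0 - (p.1 + 2488 * a) / 1000) (b := 7) (by linarith) (by linarith)
      have b2 := sq_le_sq' (a := x 1 - (p.2 + 3165 * b) / 1000) (b := 7) (by linarith) (by linarith)
      linarith
    exact mem_closedBall.2 ((dist_triangle _ _ _).trans (add_le_add h2 h1 |>.trans_eq (add_comm _ _)))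
  have t := (m.symm.trans_le (measure_mono s)).trans_eq (vol_cb (by linarith)).2
  rw [e, (vol_cb (by linarith)).1]
  refine ENNReal.div_le_of_le_mul ((ENat.toENNReal_le.2 (encard_image_le _ _)).trans ?_)
  refine (ENNReal.mul_le_mul_iff_left (c := .ofReal (2488 / 12000 * (3165 / 1000))) (by simp)
    ENNReal.ofReal_ne_top).1 (t.trans ?_)
  rw [← ENNReal.ofReal_mul (by norm_num), ← ENNReal.ofReal_mul (by positivity)]
  refine ENNReal.ofReal_le_ofReal ?_
  have : (r + 10) ^ 2 ≤ 1.525 * (2488 / 12000 * (3165 / 1000)) * r ^ 2 := by nlinarith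
  nlinarith [Real.pi_pos]

theorem lower {B : Set (Set E)} (hB : ∀ S ∈ B, ∃ x : E, S = closedBall x (1 / 2 : ℝ))
    (hc : ⋃₀ B = univ) {r : ℝ} (hr : 4000 ≤ r) : .ofReal 1.53 ≤
    (({S ∈ B | S ⊆ closedBall (0 : E) r}.encard : ℕ∞) : ℝ≥0∞) / volume (closedBall (0 : E) r) := by
  classical
  rw [(vol_cb (by linarith)).1, ENNReal.le_div_iff_mul_le
    (by simp only [ne_eq, ENNReal.ofReal_eq_zero, not_le]; left; positivity) (by simp)]
  rcases {S ∈ B | S ⊆ closedBall (0 : E) r}.finite_or_infinite with F | F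
  swap
  · simp [F.encard_eq]
  choose! c h using hB
  have k := kersh (F.toFinset.image fun S => (c S).ofLp)
    (S := WithLp.toLp 2 ⁻¹' closedBall (0 : E) (r - 4))
    (measurableSet_closedBall.preimage (PiLp.volume_preserving_toLp _).measurable) fun x hx y hy => by
      obtain ⟨S, hS, m⟩ := mem_sUnion.1 (hc ▸ mem_univ (WithLp.toLp 2 y))
      rw [h S hS] at m
      refine ⟨_, Finset.mem_image_of_mem _ (F.mem_toFinset.2 ⟨hS, ?_⟩), ?_⟩
      · rw [h S hS]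
        refine closedBall_subset_closedBall' ?_
        have h1 : WithLp.toLp 2 y ∈ closedBall (WithLp.toLp 2 x : E) 3 :=
          (mem_cb (by norm_num)).2 (hy.trans (by norm_num))
        linarith [dist_triangle4 (c S) (WithLp.toLp 2 y) (WithLp.toLp 2 x) 0, mem_closedBall.1 h1,
          mem_closedBall'.1 m, mem_closedBall.1 hx]
      · have := (mem_cb (by norm_num)).1 m
        simp only at this
        linarith
  rw [(vol_cb (by linarith)).2] at k
  rw [F.encard_eq_coe_toFinset_card, ENat.toENNReal_coe]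
  refine (ENNReal.mul_le_mul_iff_left (c := .ofReal 0.6522) (by simp; norm_num)
    ENNReal.ofReal_ne_top).1 (le_trans ?_ (k.trans (by gcongr; exact Finset.card_image_le)))
  rw [← ENNReal.ofReal_mul (by norm_num), ← ENNReal.ofReal_mul (by positivity)]
  refine ENNReal.ofReal_le_ofReal ?_
  have : 1.53 * 0.6522 * r ^ 2 ≤ (r - 4) ^ 2 := by nlinarith
  nlinarith [Real.pi_pos]

end Pool.Agent.H.MP_9ad55e_co
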